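import Pool.Agent.H.MP_8f6629_co.Main

set_option autoImplicit false

namespace Pool.Agent.Results.MP_8f6629_co.All
open Pool.Agent.H.MP_8f6629_co

/-- `σ` has `k` consecutive pairwise order-isomorphic blocks of a common length `l ≥ 2`. -/
def HasPow (k : ℕ) {n : ℕ} (σ : Equiv.Perm (Fin n)) : Prop :=
  ∃ s l : ℕ, 2 ≤ l ∧ s + k * l ≤ n ∧
    ∀ r < k, ∀ r' < k, ∀ a < l, ∀ b < l, ∀ i j i' j' : Fin n,
      i.val = s + r * l + a → j.val = s + r * l + b →
      i'.val = s + r' * l + a → j'.val = s + r' * l + b → (σ i < σ j ↔ σ i' < σ j')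

def Bicrucial (k : ℕ) {n : ℕ} (σ : Equiv.Perm (Fin n)) : Prop :=
  ¬ HasPow k σ ∧
  (∀ τ : Equiv.Perm (Fin (n + 1)), (∀ i j : Fin n, τ i.succ < τ j.succ ↔ σ i < σ j) →
    HasPow k τ) ∧
  (∀ τ : Equiv.Perm (Fin (n + 1)), (∀ i j : Fin n, τ i.castSucc < τ j.castSucc ↔ σ i < σ j) →
    HasPow k τ)

lemma hasPow_of (k : ℕ) {n : ℕ} (τ : Equiv.Perm (Fin (n + 1))) (c s l : ℕ) (hl : 2 ≤ l)
    (hc : c ≤ s) (hs : s + k * l ≤ c + n + 1)
    (h : Pw (fun y => τ ⟨min (y - c) n, by omega⟩) k s l) : HasPow k τ := by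
  refine ⟨s - c, l, hl, by omega, ?_⟩
  intro r hr r' hr' a ha b hb i j i' j' e1 e2 e3 e4
  have := h r hr r' hr' a ha b hb
  have E : ∀ (x : Fin (n + 1)) (y : ℕ), x.val + c = y → (⟨min (y - c) n, by omega⟩ : Fin (n + 1)) = x :=
    fun x y hy => Fin.ext (by have := x.isLt; show min (y - c) n = x.val; omega)
  simp only at this
  rwa [E i _ (by omega), E j _ (by omega), E i' _ (by omega), E j' _ (by omega)] at this

theorem result : ∀ k : ℕ, 3 ≤ k → ∀ N : ℕ, ∃ n : ℕ, N ≤ n ∧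
    ∃ σ : Equiv.Perm (Fin n), Bicrucial k σ := by
  intro k hk N
  obtain ⟨p, hp⟩ : ∃ p, p = 2 * k := ⟨_, rfl⟩
  obtain ⟨n, hn, hev, hN⟩ : ∃ n, 2 * k ≤ n ∧ n % 2 = 0 ∧ N + 1 ≤ n :=
    ⟨2 * (k + N + 1), by omega, by omega, by omega⟩
  obtain ⟨L, hL, hL2⟩ : ∃ L, L + p = p * n + 1 ∧ n ≤ L := by
    obtain ⟨m, rfl⟩ : ∃ m, n = m + 1 := ⟨n - 1, by omega⟩
    refine ⟨p * m + 1, by ring, ?_⟩
    have : m ≤ p * m := Nat.le_mul_of_pos_left _ (by omega)
    omega
  obtain ⟨σ, hσ⟩ := exists_perm (fun i : Fin L => f p k n (p + 1 + i.val)) (by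
    intro i j h
    have := f_inj (by omega) (by omega) (by have := i.isLt; omega) (by have := j.isLt; omega) h
    exact Fin.ext (by omega))
  refine ⟨L, by omega, σ, ?_, ?_, ?_⟩
  · rintro ⟨s, l, hl, hs, H⟩
    apply nopow (s := p + 1 + s) hp hk hn hev hl (by omega) (by omega)
    intro r hr r' hr' a ha b hb
    have bd : ∀ r < k, r * l + l ≤ k * l := fun r hr => by
      rw [← Nat.succ_mul]; exact Nat.mul_le_mul_right _ hr
    have b1 := bd r hr
    have b2 := bd r' hr'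
    have := H r hr r' hr' a ha b hb ⟨s + r * l + a, by omega⟩ ⟨s + r * l + b, by omega⟩
      ⟨s + r' * l + a, by omega⟩ ⟨s + r' * l + b, by omega⟩ rfl rfl rfl rfl
    rw [hσ, hσ] at this
    simpa only [Nat.add_assoc] using this
  · intro τ hτ
    obtain ⟨l, h1, h2, h3⟩ := leftX hp hk hn (fun y => τ ⟨min (y - p) L, by omega⟩) (by
      intro y y' a1 a2 a3 a4
      have := (hτ ⟨y - p - 1, by omega⟩ ⟨y' - p - 1, by omega⟩).trans (hσ _ _)
      simp only at this ⊢
      rw [show p + 1 + (y - p - 1) = y by omega, show p + 1 + (y' - p - 1) = y' by omega] at this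
      rw [← this]
      have E : ∀ (y : ℕ) (h1 : p + 1 ≤ y) (h2 : y ≤ p * n + 1),
          (⟨min (y - p) L, by omega⟩ : Fin (L + 1)) = Fin.succ ⟨y - p - 1, by omega⟩ :=
        fun y h1 h2 => Fin.ext (by show min (y - p) L = y - p - 1 + 1; omega)
      rw [E y a1 a2, E y' a3 a4]) (by
      intro h
      have := congrArg Fin.val (τ.injective h)
      simp only at this
      omega)
    exact hasPow_of k τ p p l h1 le_rfl (by omega) h3
  · intro τ hτ
    obtain ⟨s, l, h1, h2, h3, h4⟩ := rightX hp hk hn hev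
      (fun y => τ ⟨min (y - (p + 1)) L, by omega⟩) (by
      intro y y' a1 a2 a3 a4
      have := (hτ ⟨y - p - 1, by omega⟩ ⟨y' - p - 1, by omega⟩).trans (hσ _ _)
      simp only at this ⊢
      rw [show p + 1 + (y - p - 1) = y by omega, show p + 1 + (y' - p - 1) = y' by omega] at this
      rw [← this]
      have E : ∀ (y : ℕ) (h1 : p + 1 ≤ y) (h2 : y ≤ p * n + 1),
          (⟨min (y - (p + 1)) L, by omega⟩ : Fin (L + 1)) = Fin.castSucc ⟨y - p - 1, by omega⟩ :=
        fun y h1 h2 => Fin.ext (by show min (y - (p + 1)) L = y - p - 1; omega)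
      rw [E y a1 a2, E y' a3 a4]) (by
      intro h
      have := congrArg Fin.val (τ.injective h)
      simp only at this
      omega)
    exact hasPow_of k τ (p + 1) s l h1 h2 (by omega) h4

end Pool.Agent.Results.MP_8f6629_co.All
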